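import Pool.Agent.Helper47.RF.CoreGoals

/-!
helper59: packet RF-C10 of helper47 (MP_c98eff_gt): the geometric quantities of a smooth family.
-/

set_option autoImplicit false

open Finset

namespace Pool.Agent.Helper47.RF

/-- a class of families closed under the rules of the calculus -/
structure ClosedFam (I : Set ℝ) (P : (ℝ → HH → ℝ) → Prop) : Prop where
  const : ∀ c : ℝ, P (fun _ _ => c)
  add : ∀ f h, P f → P h → P (fun t x => f t x + h t x)
  sub : ∀ f h, P f → P h → P (fun t x => f t x - h t x)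
  mul : ∀ f h, P f → P h → P (fun t x => f t x * h t x)
  der : ∀ f i, P f → P (fun t => E i (f t))
  inv : ∀ f, P f → (∀ t ∈ I, ∀ x, x ≠ 0 → 0 < f t x) → P (fun t x => (f t x)⁻¹)
  sum : ∀ (ι : Type) (s : Finset ι) (f : ι → ℝ → HH → ℝ), (∀ a ∈ s, P (f a)) →
    P (fun t x => ∑ a ∈ s, f a t x)

/-- the conclusion for an abstract class -/
theorem ClosedFam.geom {I : Set ℝ} {P : (ℝ → HH → ℝ) → Prop} (hP : ClosedFam I P) (g : ℝ → MF)
    (hpos : ∀ t ∈ I, ∀ x, 0 < (g t x).det) (hg : ∀ i j, P (fun t x => g t x i j)) :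
    P (fun t x => (g t x).det) ∧ (∀ i j, P (fun t x => (g t x)⁻¹ i j)) ∧
      (∀ i j k, P (fun t => Gam (g t) i j k)) ∧ (∀ i j k l, P (fun t => Rup (g t) i j k l)) ∧
      (∀ i j k l, P (fun t => Rm (g t) i j k l)) ∧ (∀ i j, P (fun t => Ric (g t) i j)) ∧
      P (fun t => Scal (g t)) := by
  have hdet : P (fun t x => (g t x).det) := by
    have e : (fun t x => (g t x).det) = fun t x =>
        g t x 0 0 * g t x 1 1 * g t x 2 2 - g t x 0 0 * g t x 1 2 * g t x 2 1
        - g t x 0 1 * g t x 1 0 * g t x 2 2 + g t x 0 1 * g t x 1 2 * g t x 2 0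
        + g t x 0 2 * g t x 1 0 * g t x 2 1 - g t x 0 2 * g t x 1 1 * g t x 2 0 := by
      funext t x
      rw [Matrix.det_fin_three]
    rw [e]
    have h3 : ∀ a b c d e' f', P (fun t x => g t x a b * g t x c d * g t x e' f') :=
      fun a b c d e' f' => hP.mul _ _ (hP.mul _ _ (hg a b) (hg c d)) (hg e' f')
    exact hP.sub _ _ (hP.add _ _ (hP.add _ _ (hP.sub _ _ (hP.sub _ _ (h3 _ _ _ _ _ _)
      (h3 _ _ _ _ _ _)) (h3 _ _ _ _ _ _)) (h3 _ _ _ _ _ _)) (h3 _ _ _ _ _ _)) (h3 _ _ _ _ _ _)
  have hadj : ∀ i j, P (fun t x => (g t x).adjugate i j) := by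
    have h2 : ∀ a b c d a' b' c' d', P (fun t x => g t x a b * g t x c d
        - g t x a' b' * g t x c' d') :=
      fun a b c d a' b' c' d' => hP.sub _ _ (hP.mul _ _ (hg a b) (hg c d))
        (hP.mul _ _ (hg a' b') (hg c' d'))
    have e : ∀ i j, (fun t x => (g t x).adjugate i j) = fun t x =>
        g t x (j + 1) (i + 1) * g t x (j + 2) (i + 2)
          - g t x (j + 1) (i + 2) * g t x (j + 2) (i + 1) := by
      intro i j
      funext t x
      rw [Matrix.adjugate_fin_three]
      fin_cases i <;> fin_cases j <;> simp [Matrix.of_apply, Matrix.cons_val', Fin.isValue] <;> ring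
    intro i j
    rw [e i j]
    exact h2 _ _ _ _ _ _ _ _
  have hinv : ∀ i j, P (fun t x => (g t x)⁻¹ i j) := by
    intro i j
    have e : (fun t x => (g t x)⁻¹ i j) = fun t x => ((g t x).det)⁻¹ * (g t x).adjugate i j := by
      funext t x
      rw [Matrix.inv_def, Ring.inverse_eq_inv']
      rfl
    rw [e]
    exact hP.mul _ _ (hP.inv _ hdet (fun t ht x _ => hpos t ht x)) (hadj i j)
  have hGamL : ∀ i j k, P (fun t => GamL (g t) i j k) := by
    intro i j k
    have e : (fun t => GamL (g t) i j k) = fun t x =>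
        (E i (fun y => g t y j k) x + E j (fun y => g t y i k) x - E k (fun y => g t y i j) x
        + 2 * ∑ l, (eps i j l * g t x l k - eps i k l * g t x l j - eps j k l * g t x l i))
          * (1 / 2) := by
      funext t x
      unfold GamL
      ring
    rw [e]
    apply hP.mul _ _ _ (hP.const _)
    apply hP.add
    · apply hP.sub
      · apply hP.add
        · exact hP.der (fun t y => g t y j k) i (hg j k)
        · exact hP.der (fun t y => g t y i k) j (hg i k)
      · exact hP.der (fun t y => g t y i j) k (hg i j)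
    · apply hP.mul _ _ (hP.const _)
      apply hP.sum
      intro l _
      apply hP.sub
      · apply hP.sub
        · exact hP.mul _ _ (hP.const _) (hg l k)
        · exact hP.mul _ _ (hP.const _) (hg l j)
      · exact hP.mul _ _ (hP.const _) (hg l i)
  have hGam : ∀ i j k, P (fun t => Gam (g t) i j k) := by
    intro i j k
    have e : (fun t => Gam (g t) i j k) = fun t x => ∑ m, (g t x)⁻¹ k m * GamL (g t) i j m x := by
      funext t x
      rfl
    rw [e]
    apply hP.sum
    intro m _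
    exact hP.mul _ _ (hinv k m) (hGamL i j m)
  have hRup : ∀ i j k l, P (fun t => Rup (g t) i j k l) := by
    intro i j k l
    have e : (fun t => Rup (g t) i j k l) = fun t x =>
      E i (Gam (g t) j k l) x - E j (Gam (g t) i k l) x
        + ∑ m, (Gam (g t) j k m x * Gam (g t) i m l x - Gam (g t) i k m x * Gam (g t) j m l x)
        - 2 * ∑ m, eps i j m * Gam (g t) m k l x := by
      funext t x
      rfl
    rw [e]
    apply hP.sub
    · apply hP.add
      · apply hP.sub
        · exact hP.der _ i (hGam j k l)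
        · exact hP.der _ j (hGam i k l)
      · apply hP.sum
        intro m _
        exact hP.sub _ _ (hP.mul _ _ (hGam j k m) (hGam i m l))
          (hP.mul _ _ (hGam i k m) (hGam j m l))
    · apply hP.mul _ _ (hP.const _)
      apply hP.sum
      intro m _
      exact hP.mul _ _ (hP.const _) (hGam m k l)
  have hRm : ∀ i j k l, P (fun t => Rm (g t) i j k l) := by
    intro i j k l
    have e : (fun t => Rm (g t) i j k l) = fun t x => ∑ m, Rup (g t) i j k m x * g t x m l := by
      funext t x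
      rfl
    rw [e]
    apply hP.sum
    intro m _
    exact hP.mul _ _ (hRup i j k m) (hg m l)
  have hRic : ∀ i j, P (fun t => Ric (g t) i j) := by
    intro j k
    have e : (fun t => Ric (g t) j k) = fun t x => ∑ i, Rup (g t) i j k i x := by
      funext t x
      rfl
    rw [e]
    apply hP.sum
    intro m _
    exact hRup m j k m
  refine ⟨hdet, hinv, hGam, hRup, hRm, hRic, ?_⟩
  have e : (fun t => Scal (g t)) = fun t x => ∑ j, ∑ k, (g t x)⁻¹ j k * Ric (g t) j k x := by
    funext t x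
    rfl
  rw [e]
  apply hP.sum
  intro j _
  apply hP.sum _ _ (fun k t x => (g t x)⁻¹ j k * Ric (g t) j k x)
  intro k _
  exact hP.mul _ _ (hinv j k) (hRic j k)

/-- smooth families -/
theorem closedFam_SmFam (hC8 : Goal_C8) (I : Set ℝ) : ClosedFam I (SmFam I) := by
  obtain ⟨h1, h2, h3, h4, h5, h6, h7, h8⟩ := hC8 I
  refine ⟨?_, h2, h3, h4, h6, ?_, h8⟩
  · intro c
    exact h1 (fun _ => c) continuousOn_const
  · intro f hf hpos
    exact h7 f (fun y => y⁻¹) (Set.Ioi 0) isOpen_Ioi
      (fun y hy => (contDiffAt_inv ℝ (ne_of_gt hy)).contDiffWithinAt) hf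
      (fun t ht x hx => hpos t ht x hx)

/-- families that are `C¹` in time -/
theorem closedFam_SmFam1 (hC9 : Goal_C9) (I : Set ℝ) :
    ClosedFam I (fun f => ∃ a', SmFam1 I f a') := by
  obtain ⟨h1, h2, h3, h4, h5, h6, h7, h8⟩ := hC9 I
  refine ⟨?_, ?_, ?_, ?_, ?_, ?_, ?_⟩
  · intro c
    exact ⟨_, h1 (fun _ => c) (fun _ => 0) continuousOn_const continuousOn_const
      (fun t _ => hasDerivWithinAt_const _ _ _)⟩
  · rintro f h ⟨f', hf⟩ ⟨h', hh⟩
    exact ⟨_, h2 f f' h h' hf hh⟩
  · rintro f h ⟨f', hf⟩ ⟨h', hh⟩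
    exact ⟨_, h3 f f' h h' hf hh⟩
  · rintro f h ⟨f', hf⟩ ⟨h', hh⟩
    exact ⟨_, h4 f f' h h' hf hh⟩
  · rintro f i ⟨f', hf⟩
    exact ⟨_, h6 f f' i hf⟩
  · rintro f ⟨f', hf⟩ hpos
    exact ⟨_, h7 f f' (fun y => y⁻¹) (fun y => -(y ^ 2)⁻¹) (Set.Ioi 0) isOpen_Ioi
      (fun y hy => (contDiffAt_inv ℝ (ne_of_gt hy)).contDiffWithinAt)
      (fun y hy => hasDerivAt_inv (ne_of_gt hy)) hf (fun t ht x hx => hpos t ht x hx)⟩
  · intro ι s f hf
    choose! f' hf' using hf
    exact ⟨_, h8 ι s f f' hf'⟩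

/-- packet RF-C10 -/
theorem goal_C10 (hC6 : Goal_C6) (hC8 : Goal_C8) (hC9 : Goal_C9) : Goal_C10 := by
  intro I g hmet
  have hpos : ∀ t ∈ I, ∀ x, 0 < (g t x).det := fun t ht x => (hC6 (g t) (hmet t ht)).1 x
  exact ⟨fun h => (closedFam_SmFam hC8 I).geom g hpos h,
    fun h => (closedFam_SmFam1 hC9 I).geom g hpos h⟩

end Pool.Agent.Helper47.RF
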