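import Pool.Agent.Helper73.RF.GoalsA

/-!
# Packet ALG2: Jacobi identity `D, H, H` in the frame bundle algebra
-/

set_option autoImplicit false

open Finset

namespace Pool.Agent.Helper59.RF

open Pool.Agent.Helper73.RF

theorem alg2 : Alg2Stmt := by
  intro T F hB hMs hVM hbi
  obtain ⟨Y', hY'⟩ := hB.DH
  have h : ∀ a f, F.D (F.H a f) = F.H a (F.D f)
      + (F.S a 0 * F.H 0 f + F.S a 1 * F.H 1 f + F.S a 2 * F.H 2 f)
      + (Y' a 0 * F.V 0 f + Y' a 1 * F.V 1 f + Y' a 2 * F.V 2 f) := by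
    intro a f
    have := hY' a f
    simpa [Fin.sum_univ_three] using this
  have HH01 : ∀ f, F.H 0 (F.H 1 f) - F.H 1 (F.H 0 f)
      = F.M 2 0 * F.V 0 f + F.M 2 1 * F.V 1 f + F.M 2 2 * F.V 2 f := by
    intro f
    have := hB.HH 0 1 f
    simpa [Fin.sum_univ_three, eps] using this
  have HH12 : ∀ f, F.H 1 (F.H 2 f) - F.H 2 (F.H 1 f)
      = F.M 0 0 * F.V 0 f + F.M 0 1 * F.V 1 f + F.M 0 2 * F.V 2 f := by
    intro f
    have := hB.HH 1 2 f
    simpa [Fin.sum_univ_three, eps] using this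
  have HH20 : ∀ f, F.H 2 (F.H 0 f) - F.H 0 (F.H 2 f)
      = F.M 1 0 * F.V 0 f + F.M 1 1 * F.V 1 f + F.M 1 2 * F.V 2 f := by
    intro f
    have := hB.HH 2 0 f
    simpa [Fin.sum_univ_three, eps] using this
  have V00 : ∀ f, F.V 0 (F.H 0 f) - F.H 0 (F.V 0 f) = 0 := by
    intro f; have := hB.VH 0 0 f; simpa [Fin.sum_univ_three, eps] using this
  have V01 : ∀ f, F.V 0 (F.H 1 f) - F.H 1 (F.V 0 f) = F.H 2 f := by
    intro f; have := hB.VH 0 1 f; simpa [Fin.sum_univ_three, eps] using this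
  have V02 : ∀ f, F.V 0 (F.H 2 f) - F.H 2 (F.V 0 f) = -F.H 1 f := by
    intro f; have := hB.VH 0 2 f; simpa [Fin.sum_univ_three, eps] using this
  have V10 : ∀ f, F.V 1 (F.H 0 f) - F.H 0 (F.V 1 f) = -F.H 2 f := by
    intro f; have := hB.VH 1 0 f; simpa [Fin.sum_univ_three, eps] using this
  have V11 : ∀ f, F.V 1 (F.H 1 f) - F.H 1 (F.V 1 f) = 0 := by
    intro f; have := hB.VH 1 1 f; simpa [Fin.sum_univ_three, eps] using this
  have V12 : ∀ f, F.V 1 (F.H 2 f) - F.H 2 (F.V 1 f) = F.H 0 f := by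
    intro f; have := hB.VH 1 2 f; simpa [Fin.sum_univ_three, eps] using this
  have V20 : ∀ f, F.V 2 (F.H 0 f) - F.H 0 (F.V 2 f) = F.H 1 f := by
    intro f; have := hB.VH 2 0 f; simpa [Fin.sum_univ_three, eps] using this
  have V21 : ∀ f, F.V 2 (F.H 1 f) - F.H 1 (F.V 2 f) = -F.H 0 f := by
    intro f; have := hB.VH 2 1 f; simpa [Fin.sum_univ_three, eps] using this
  have V22 : ∀ f, F.V 2 (F.H 2 f) - F.H 2 (F.V 2 f) = 0 := by
    intro f; have := hB.VH 2 2 f; simpa [Fin.sum_univ_three, eps] using this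
  -- the second derivative
  have h2 : ∀ a b f, F.D (F.H a (F.H b f)) = F.H a (F.H b (F.D f))
      + (F.S b 0 * F.H a (F.H 0 f) + F.H a (F.S b 0) * F.H 0 f)
      + (F.S b 1 * F.H a (F.H 1 f) + F.H a (F.S b 1) * F.H 1 f)
      + (F.S b 2 * F.H a (F.H 2 f) + F.H a (F.S b 2) * F.H 2 f)
      + (Y' b 0 * F.H a (F.V 0 f) + F.H a (Y' b 0) * F.V 0 f)
      + (Y' b 1 * F.H a (F.V 1 f) + F.H a (Y' b 1) * F.V 1 f)
      + (Y' b 2 * F.H a (F.V 2 f) + F.H a (Y' b 2) * F.V 2 f)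
      + (F.S a 0 * F.H 0 (F.H b f) + F.S a 1 * F.H 1 (F.H b f) + F.S a 2 * F.H 2 (F.H b f))
      + (Y' a 0 * F.V 0 (F.H b f) + Y' a 1 * F.V 1 (F.H b f) + Y' a 2 * F.V 2 (F.H b f)) := by
    intro a b f
    rw [h a (F.H b f), h b f]
    simp only [map_add, Derivation.leibniz, smul_eq_mul]
    ring
  have D01 : ∀ f, F.D (F.H 0 (F.H 1 f)) - F.D (F.H 1 (F.H 0 f))
      = (F.M 2 0 * F.V 0 (F.D f) + F.D (F.M 2 0) * F.V 0 f)
      + (F.M 2 1 * F.V 1 (F.D f) + F.D (F.M 2 1) * F.V 1 f)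
      + (F.M 2 2 * F.V 2 (F.D f) + F.D (F.M 2 2) * F.V 2 f) := by
    intro f
    rw [← map_sub, HH01 f]
    simp only [map_add, Derivation.leibniz, smul_eq_mul, hB.DV]
    ring
  have D12 : ∀ f, F.D (F.H 1 (F.H 2 f)) - F.D (F.H 2 (F.H 1 f))
      = (F.M 0 0 * F.V 0 (F.D f) + F.D (F.M 0 0) * F.V 0 f)
      + (F.M 0 1 * F.V 1 (F.D f) + F.D (F.M 0 1) * F.V 1 f)
      + (F.M 0 2 * F.V 2 (F.D f) + F.D (F.M 0 2) * F.V 2 f) := by
    intro f
    rw [← map_sub, HH12 f]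
    simp only [map_add, Derivation.leibniz, smul_eq_mul, hB.DV]
    ring
  have D20 : ∀ f, F.D (F.H 2 (F.H 0 f)) - F.D (F.H 0 (F.H 2 f))
      = (F.M 1 0 * F.V 0 (F.D f) + F.D (F.M 1 0) * F.V 0 f)
      + (F.M 1 1 * F.V 1 (F.D f) + F.D (F.M 1 1) * F.V 1 f)
      + (F.M 1 2 * F.V 2 (F.D f) + F.D (F.M 1 2) * F.V 2 f) := by
    intro f
    rw [← map_sub, HH20 f]
    simp only [map_add, Derivation.leibniz, smul_eq_mul, hB.DV]
    ring
  -- pair (0,1)
  have P01 := hB.ind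
    ![F.H 0 (F.S 1 0) - F.H 1 (F.S 0 0) - Y' 0 2, F.H 0 (F.S 1 1) - F.H 1 (F.S 0 1) - Y' 1 2,
      F.H 0 (F.S 1 2) - F.H 1 (F.S 0 2) + Y' 0 0 + Y' 1 1]
    (fun j => F.S 0 0 * F.M 2 j - F.S 0 2 * F.M 0 j + F.S 1 1 * F.M 2 j - F.S 1 2 * F.M 1 j
      + F.H 0 (Y' 1 j) - F.H 1 (Y' 0 j) - F.D (F.M 2 j)) (by
    intro f
    simp only [Fin.sum_univ_three, Matrix.cons_val_zero, Matrix.cons_val_one, Matrix.cons_val]
    linear_combination D01 f - h2 0 1 f + h2 1 0 f - HH01 (F.D f)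
      - F.S 0 0 * HH01 f - F.S 1 1 * HH01 f + F.S 0 2 * HH12 f + F.S 1 2 * HH20 f
      - Y' 0 0 * V01 f - Y' 0 1 * V11 f - Y' 0 2 * V21 f
      + Y' 1 0 * V00 f + Y' 1 1 * V10 f + Y' 1 2 * V20 f)
  have P12 := hB.ind
    ![F.H 1 (F.S 2 0) - F.H 2 (F.S 1 0) + Y' 1 1 + Y' 2 2,
      F.H 1 (F.S 2 1) - F.H 2 (F.S 1 1) - Y' 1 0, F.H 1 (F.S 2 2) - F.H 2 (F.S 1 2) - Y' 2 0]
    (fun j => F.S 1 1 * F.M 0 j - F.S 1 0 * F.M 1 j + F.S 2 2 * F.M 0 j - F.S 2 0 * F.M 2 j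
      + F.H 1 (Y' 2 j) - F.H 2 (Y' 1 j) - F.D (F.M 0 j)) (by
    intro f
    simp only [Fin.sum_univ_three, Matrix.cons_val_zero, Matrix.cons_val_one, Matrix.cons_val]
    linear_combination D12 f - h2 1 2 f + h2 2 1 f - HH12 (F.D f)
      - F.S 1 1 * HH12 f - F.S 2 2 * HH12 f + F.S 1 0 * HH20 f + F.S 2 0 * HH01 f
      - Y' 1 0 * V02 f - Y' 1 1 * V12 f - Y' 1 2 * V22 f
      + Y' 2 0 * V01 f + Y' 2 1 * V11 f + Y' 2 2 * V21 f)
  have P20 := hB.ind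
    ![F.H 2 (F.S 0 0) - F.H 0 (F.S 2 0) - Y' 0 1,
      F.H 2 (F.S 0 1) - F.H 0 (F.S 2 1) + Y' 0 0 + Y' 2 2,
      F.H 2 (F.S 0 2) - F.H 0 (F.S 2 2) - Y' 2 1]
    (fun j => F.S 2 2 * F.M 1 j - F.S 2 1 * F.M 2 j + F.S 0 0 * F.M 1 j - F.S 0 1 * F.M 0 j
      + F.H 2 (Y' 0 j) - F.H 0 (Y' 2 j) - F.D (F.M 1 j)) (by
    intro f
    simp only [Fin.sum_univ_three, Matrix.cons_val_zero, Matrix.cons_val_one, Matrix.cons_val]
    linear_combination D20 f - h2 2 0 f + h2 0 2 f - HH20 (F.D f)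
      - F.S 2 2 * HH20 f - F.S 0 0 * HH20 f + F.S 2 1 * HH01 f + F.S 0 1 * HH12 f
      - Y' 2 0 * V00 f - Y' 2 1 * V10 f - Y' 2 2 * V20 f
      + Y' 0 0 * V02 f + Y' 0 1 * V12 f + Y' 0 2 * V22 f)
  obtain ⟨A01, C01⟩ := P01
  obtain ⟨A12, C12⟩ := P12
  obtain ⟨A20, C20⟩ := P20
  have a010 := A01 0
  have a011 := A01 1
  have a012 := A01 2
  have a120 := A12 0
  have a121 := A12 1
  have a122 := A12 2
  have a200 := A20 0
  have a201 := A20 1
  have a202 := A20 2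
  simp only [Matrix.cons_val_zero, Matrix.cons_val_one, Matrix.cons_val] at a010 a011 a012 a120
  simp only [Matrix.cons_val_zero, Matrix.cons_val_one, Matrix.cons_val] at a121 a122 a200 a201 a202
  have hs10 : F.S 1 0 = F.S 0 1 := hB.Ssymm 1 0
  have hs20 : F.S 2 0 = F.S 0 2 := hB.Ssymm 2 0
  have hs21 : F.S 2 1 = F.S 1 2 := hB.Ssymm 2 1
  rw [hs10] at a010 a120
  rw [hs20] at a120 a200
  rw [hs21] at a121 a201
  have half : ∀ x y : F.B, x + x = y + y → x = y := by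
    intro x y hxy
    have h1 : (2 : ℝ) • x = (2 : ℝ) • y := by rw [two_smul, two_smul, hxy]
    have h3 := congrArg (fun z => (1 / 2 : ℝ) • z) h1
    simpa [smul_smul] using h3
  have Yexp : ∀ a, F.Y a 0 = F.H 1 (F.S a 2) - F.H 2 (F.S a 1)
      ∧ F.Y a 1 = F.H 2 (F.S a 0) - F.H 0 (F.S a 2)
      ∧ F.Y a 2 = F.H 0 (F.S a 1) - F.H 1 (F.S a 0) := by
    intro a
    refine ⟨?_, ?_, ?_⟩ <;>
    · simp [FBD.Y, Fin.sum_univ_three, eps]
      ring
  have hYY : ∀ a k, Y' a k = F.Y a k := by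
    have e00 := (Yexp 0).1
    have e01 := (Yexp 0).2.1
    have e02 := (Yexp 0).2.2
    have e10 := (Yexp 1).1
    have e11 := (Yexp 1).2.1
    have e12 := (Yexp 1).2.2
    have e20 := (Yexp 2).1
    have e21 := (Yexp 2).2.1
    have e22 := (Yexp 2).2.2
    rw [hs10] at e11 e12
    rw [hs20] at e21 e22
    rw [hs21] at e20 e22
    intro a k
    fin_cases a <;> fin_cases k
    · show Y' 0 0 = F.Y 0 0
      rw [e00]
      apply half
      linear_combination a012 + a201 - a120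
    · show Y' 0 1 = F.Y 0 1
      rw [e01]
      linear_combination -a200
    · show Y' 0 2 = F.Y 0 2
      rw [e02]
      linear_combination -a010
    · show Y' 1 0 = F.Y 1 0
      rw [e10]
      linear_combination -a121
    · show Y' 1 1 = F.Y 1 1
      rw [e11]
      apply half
      linear_combination a012 - a201 + a120
    · show Y' 1 2 = F.Y 1 2
      rw [e12]
      linear_combination -a011
    · show Y' 2 0 = F.Y 2 0
      rw [e20]
      linear_combination -a122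
    · show Y' 2 1 = F.Y 2 1
      rw [e21]
      linear_combination -a202
    · show Y' 2 2 = F.Y 2 2
      rw [e22]
      apply half
      linear_combination -a012 + a201 + a120
  refine { toBase := hB, Msymm := hMs, VM := hVM, bianchi := hbi, DHY := ?_, DM := ?_ }
  · intro a f
    rw [hY' a f]
    simp only [hYY]
  · intro m j
    have c01 := C01 j
    have c12 := C12 j
    have c20 := C20 j
    simp only [hYY] at c01 c12 c20
    fin_cases m
    · simp [Fin.sum_univ_three, eps]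
      linear_combination -c12 - F.M 1 j * hs10 - F.M 2 j * hs20
    · simp [Fin.sum_univ_three, eps]
      linear_combination -c20 - F.M 2 j * hs21 + F.M 0 j * hs10
    · simp [Fin.sum_univ_three, eps]
      linear_combination -c01 + F.M 0 j * hs20 + F.M 1 j * hs21

end Pool.Agent.Helper59.RF
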